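import Pool.Agent.X31.DP4

/-!
# Partitions into distinct primes: `D(n)` is unbounded

`M n` is the largest number of parts of a partition of `n` into distinct primes, `m n` is the number of parts of the
partition of `n` into distinct primes which has the largest product (it is unique), and `D n = M n - m n`. We prove
that `D` is unbounded on the set of admissible integers. (The difference is a difference of natural numbers; if
`C < D n` then `m n + C < M n`.)

Proof. (1) By induction there are sets `A` of any number of odd primes such that the product of `A` is the least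
one among all sets of primes with the same sum: the new element `b` is a large prime for which the numbers
`b + ∑ A - ∑ B` are composite for all the finitely many sets `B` of primes with small product and `∑ B ≠ ∑ A` (they
have given prime factors). (2) In the last step `b` is also chosen such that `σ = b + ∑ A` is a sum of two different
primes `p` and `q`: almost all even numbers are, and the primes of a residue class are not so rare. (3) Let
`P` be a large prime such that the next prime is larger than `P + G`, let `n = ∑_{r ≤ P} r - σ`. Then the primes up to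
`P` without `p` and `q` are a partition of `n`, and the partition with the largest product consists of the primes up
to `P` without the `|A| + 1` elements of the optimal set with sum `σ` (a partition which contains larger primes
has a smaller product, because of the gap).
-/

set_option autoImplicit false

namespace Pool.Agent.Results.MP_60b32f_nt.Unbounded

open Finset

/-- `S` is a partition of `n` into distinct primes -/
def IsPartition (n : ℕ) (S : Finset ℕ) : Prop := (∀ p ∈ S, p.Prime) ∧ ∑ p ∈ S, p = n

/-- `S` is a partition of `n` into distinct primes whose product is maximal among all these partitions -/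
def IsStar (n : ℕ) (S : Finset ℕ) : Prop :=
  IsPartition n S ∧ ∀ U : Finset ℕ, IsPartition n U → ∏ p ∈ U, p ≤ ∏ p ∈ S, p

/-- `n ≥ 2` has a partition into distinct primes -/
def Admissible (n : ℕ) : Prop := 2 ≤ n ∧ ∃ S : Finset ℕ, IsPartition n S

/-- the largest number of parts of a partition of `n` into distinct primes -/
noncomputable def M (n : ℕ) : ℕ := sSup {k : ℕ | ∃ S : Finset ℕ, IsPartition n S ∧ S.card = k}

/-- the number of parts of the partition of `n` into distinct primes with the largest product (for admissible `n`
the set has exactly one element, by the first part of the theorem) -/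
noncomputable def m (n : ℕ) : ℕ := sSup {k : ℕ | ∃ S : Finset ℕ, IsStar n S ∧ S.card = k}

/-- `D(n) = M(n) - m(n)` -/
noncomputable def D (n : ℕ) : ℕ := M n - m n

lemma sub_range {n : ℕ} {S : Finset ℕ} (h : IsPartition n S) : S ⊆ range (n + 1) := by
  intro p hp
  rw [mem_range]
  have : p ≤ ∑ p ∈ S, p := single_le_sum (f := fun p : ℕ => p) (fun i _ => Nat.zero_le i) hp
  rw [h.2] at this
  omega

lemma exists_star {n : ℕ} (h : Admissible n) : ∃! S : Finset ℕ, IsStar n S := by
  classical
  obtain ⟨-, S₀, hS₀⟩ := h
  have hne : ((range (n + 1)).powerset.filter (fun S => IsPartition n S)).Nonempty :=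
    ⟨S₀, by rw [mem_filter, mem_powerset]; exact ⟨sub_range hS₀, hS₀⟩⟩
  obtain ⟨S, hS, hmax⟩ := exists_max_image _ (fun S : Finset ℕ => ∏ p ∈ S, p) hne
  rw [mem_filter] at hS
  have hstar : IsStar n S := by
    refine ⟨hS.2, fun U hU => hmax U ?_⟩
    rw [mem_filter, mem_powerset]
    exact ⟨sub_range hU, hU⟩
  refine ⟨S, hstar, ?_⟩
  intro S' hS'
  have h1 : ∏ p ∈ S', p = ∏ p ∈ S, p := le_antisymm (hstar.2 S' hS'.1) (hS'.2 S hstar.1)
  rw [← Nat.primeFactors_prod hS'.1.1, ← Nat.primeFactors_prod hstar.1.1, h1]

theorem result : (∀ n : ℕ, Admissible n → ∃! S : Finset ℕ, IsStar n S) ∧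
    ∀ C : ℕ, ∃ n : ℕ, Admissible n ∧ C < D n := by
  refine ⟨fun n hn => exists_star hn, fun C => ?_⟩
  obtain ⟨n, hn2, T, hT1, hT2, hmain⟩ := Pool.Agent.X31.DP.main C
  have hadm : Admissible n := ⟨hn2, T, hT1, hT2⟩
  obtain ⟨S, hS, huniq⟩ := exists_star hadm
  refine ⟨n, hadm, ?_⟩
  have h1 : S.card + C < T.card :=
    hmain S hS.1.1 hS.1.2 (fun U hU1 hU2 => hS.2 U ⟨hU1, hU2⟩)
  have h2 : m n = S.card := by
    have e : {k : ℕ | ∃ S : Finset ℕ, IsStar n S ∧ S.card = k} = {S.card} := by
      ext k
      constructor
      · rintro ⟨S', hS', rfl⟩
        rw [huniq S' hS']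
        rfl
      · intro hk
        rw [Set.mem_singleton_iff] at hk
        exact ⟨S, hS, hk.symm⟩
    unfold m
    rw [e, csSup_singleton]
  have h3 : T.card ≤ M n := by
    apply le_csSup
    · refine ⟨n + 1, ?_⟩
      rintro k ⟨S', hS', rfl⟩
      have := card_le_card (sub_range hS')
      rwa [card_range] at this
    · exact ⟨T, ⟨hT1, hT2⟩, rfl⟩
  unfold D
  omega

end Pool.Agent.Results.MP_60b32f_nt.Unbounded
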